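import Pool.Agent.P8H96.RL.Stm

set_option autoImplicit false

open Polynomial
open scoped NumberField

namespace Pool.Agent.P8H62.RL

open Pool.Agent.P8H96.RL


/-- the field generated by the `n`-th roots of unity -/
noncomputable def EE (n : ℕ) : IntermediateField ℚ (AlgebraicClosure ℚ) :=
  IntermediateField.adjoin ℚ {ζ | ζ ^ n = 1}

theorem EE_mono {m n : ℕ} (h : m ∣ n) : EE m ≤ EE n := by
  apply IntermediateField.adjoin.mono
  intro ζ hζ
  obtain ⟨c, rfl⟩ := h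
  simp only [Set.mem_ofPred_eq] at hζ ⊢
  rw [pow_mul, hζ, one_pow]

theorem exists_EE {x : (AlgebraicClosure ℚ)} (hx : x ∈ Qab) : ∃ n : ℕ, 0 < n ∧ x ∈ EE n := by
  induction hx using IntermediateField.adjoin_induction with
  | mem x hx =>
    obtain ⟨n, hn, h⟩ := hx
    exact ⟨n, hn, IntermediateField.subset_adjoin _ _ h⟩
  | algebraMap x => exact ⟨1, one_pos, (EE 1).algebraMap_mem x⟩
  | add x y _ _ hx hy =>
    obtain ⟨m, hm, h1⟩ := hx
    obtain ⟨n, hn, h2⟩ := hy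
    exact ⟨m * n, by positivity, add_mem (EE_mono (Dvd.intro _ rfl) h1)
      (EE_mono (Dvd.intro_left _ rfl) h2)⟩
  | inv x _ hx =>
    obtain ⟨m, hm, h1⟩ := hx
    exact ⟨m, hm, inv_mem h1⟩
  | mul x y _ _ hx hy =>
    obtain ⟨m, hm, h1⟩ := hx
    obtain ⟨n, hn, h2⟩ := hy
    exact ⟨m * n, by positivity, mul_mem (EE_mono (Dvd.intro _ rfl) h1)
      (EE_mono (Dvd.intro_left _ rfl) h2)⟩

theorem exists_EE_all (c : ℕ → (AlgebraicClosure ℚ)) (hc : ∀ i, c i ∈ Qab) (d : ℕ) :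
    ∃ n : ℕ, 0 < n ∧ ∀ i ≤ d, c i ∈ EE n := by
  choose m hm h using fun i => exists_EE (hc i)
  refine ⟨∏ i ∈ Finset.range (d + 1), m i, Finset.prod_pos fun i _ => hm i, fun i hi => ?_⟩
  exact EE_mono (Finset.dvd_prod_of_mem m (Finset.mem_range.2 (by omega))) (h i)

/-- an embedding of a cyclotomic field -/
theorem embed (n : ℕ) [NeZero n] : ∃ j : CyclotomicField n ℚ →ₐ[ℚ] (AlgebraicClosure ℚ),
    (∀ x ∈ EE n, ∃ y, j y = x) ∧ ∀ y, j y ∈ Qab := by
  let j : CyclotomicField n ℚ →ₐ[ℚ] (AlgebraicClosure ℚ) := IsAlgClosed.lift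
  have hcy : IsCyclotomicExtension {n} ℚ (CyclotomicField n ℚ) :=
    CyclotomicField.isCyclotomicExtension n ℚ
  obtain ⟨ζ, hζ⟩ : ∃ ζ : CyclotomicField n ℚ, IsPrimitiveRoot ζ n :=
    ⟨_, IsCyclotomicExtension.zeta_spec n ℚ (CyclotomicField n ℚ)⟩
  have hjζ : IsPrimitiveRoot (j ζ) n := hζ.map_of_injective j.injective
  refine ⟨j, ?_, ?_⟩
  · have hle : EE n ≤ j.fieldRange := by
      unfold EE
      rw [IntermediateField.adjoin_le_iff]
      intro x hx
      obtain ⟨i, _, rfl⟩ := hjζ.eq_pow_of_pow_eq_one hx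
      exact ⟨ζ ^ i, by simp⟩
    intro x hx
    obtain ⟨y, hy⟩ := hle hx
    exact ⟨y, hy⟩
  · intro y
    have htop : Algebra.adjoin ℚ ({ζ} : Set (CyclotomicField n ℚ)) = ⊤ :=
      IsCyclotomicExtension.adjoin_primitive_root_eq_top hζ
    have hle : (Algebra.adjoin ℚ ({ζ} : Set (CyclotomicField n ℚ))).map j ≤ Qab.toSubalgebra := by
      rw [AlgHom.map_adjoin, Algebra.adjoin_le_iff]
      rintro x ⟨w, hw, rfl⟩
      rw [Set.mem_singleton_iff] at hw
      subst hw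
      apply IntermediateField.subset_adjoin
      exact ⟨n, Nat.pos_of_ne_zero (NeZero.ne n), hjζ.pow_eq_one⟩
    apply hle
    rw [htop]
    exact ⟨y, Algebra.mem_top, rfl⟩

theorem al1 : S_AL1 := by
  intro α hα
  have hα' : IsIntegral Qab α := hα.tower_top
  set p := minpoly Qab α with hp
  have hpm : p.Monic := minpoly.monic hα'
  have hpi : Irreducible p := minpoly.irreducible hα'
  -- coefficients are integral
  have hdvd : p ∣ (minpoly ℤ α).map (algebraMap ℤ Qab) := by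
    apply minpoly.dvd
    rw [aeval_map_algebraMap, minpoly.aeval]
  have hint : ∀ i, IsIntegral ℤ (p.coeff i) :=
    Polynomial.isIntegral_coeff_of_dvd _ _ (minpoly.monic hα) hpm hdvd
  obtain ⟨m, hm, hc⟩ := exists_EE_all (fun i => ((p.coeff i : Qab) : (AlgebraicClosure ℚ)))
    (fun i => (p.coeff i).2) p.natDegree
  have : NeZero m := ⟨hm.ne'⟩
  obtain ⟨j, hj1, hj2⟩ := embed m
  let j' : CyclotomicField m ℚ →+* Qab :=
    (j : CyclotomicField m ℚ →+* (AlgebraicClosure ℚ)).codRestrict Qab.toSubfield.toSubring hj2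
  have hj' : ∀ y, ((j' y : Qab) : (AlgebraicClosure ℚ)) = j y := fun y => rfl
  have hlift : p ∈ lifts j' := by
    rw [lifts_iff_coeff_lifts]
    intro i
    by_cases hi : i ≤ p.natDegree
    · obtain ⟨y, hy⟩ := hj1 _ (hc i hi)
      exact ⟨y, Subtype.ext (by rw [hj', hy])⟩
    · rw [coeff_eq_zero_of_natDegree_lt (by omega)]
      exact ⟨0, by simp⟩
  obtain ⟨q, hq, hqd, hqm⟩ := lifts_and_natDegree_eq_and_monic hlift hpm
  have hqint : ∀ i, IsIntegral ℤ (q.coeff i) := by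
    intro i
    have h1 := hint i
    rw [← hq, coeff_map] at h1
    have h2 : Function.Injective (algebraMap ℤ (AlgebraicClosure ℚ)) := (algebraMap ℤ (AlgebraicClosure ℚ)).injective_int
    obtain ⟨P, hP, hP2⟩ := h1
    refine ⟨P, hP, j'.injective ?_⟩
    rw [map_zero, hom_eval₂]
    rw [← hP2]
    congr 1
    exact Subsingleton.elim _ _
  have hlift2 : q ∈ lifts (algebraMap (𝓞 (CyclotomicField m ℚ)) (CyclotomicField m ℚ)) := by
    rw [lifts_iff_coeff_lifts]
    intro i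
    exact ⟨⟨q.coeff i, hqint i⟩, rfl⟩
  obtain ⟨f, hf, hfd, hfm⟩ := lifts_and_natDegree_eq_and_monic hlift2 hqm
  refine ⟨m, inferInstance, f, (j : CyclotomicField m ℚ →+* (AlgebraicClosure ℚ)), hfm, ?_, ?_, ?_⟩
  · rw [hf]
    exact hqm.irreducible_of_irreducible_map j' q (hq ▸ hpi)
  · rw [hfd, hqd]
  · rw [hf]
    have h3 : q.map (j : CyclotomicField m ℚ →+* (AlgebraicClosure ℚ)) = p.map (algebraMap Qab (AlgebraicClosure ℚ)) := by
      rw [← hq, map_map]
      rfl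
    rw [h3, eval_map_algebraMap]
    exact minpoly.aeval _ _

end Pool.Agent.P8H62.RL
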