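import Pool.Agent.P8H96.RL.Stm

set_option autoImplicit false

open Polynomial
open scoped NumberField

namespace Pool.Agent.P8H62.RL

open Pool.Agent.P8H96.RL


theorem isAlg : Algebra.IsAlgebraic ℚ (AlgebraicClosure ℚ) := AlgebraicClosure.isAlgebraic ℚ

theorem normalQB : Normal ℚ (AlgebraicClosure ℚ) := by
  have := isAlg
  have : IsAlgClosure ℚ (AlgebraicClosure ℚ) := ⟨inferInstance, inferInstance⟩
  exact IsAlgClosure.normal ℚ (AlgebraicClosure ℚ)

section core

variable (k : Type) [Field k] [NumberField k] (F : k[X]) (j : k →+* (AlgebraicClosure ℚ)) (α : (AlgebraicClosure ℚ))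

theorem map_map_eq (m : ℚ[X]) (σ : k →+* (AlgebraicClosure ℚ)) :
    (m.map (algebraMap ℚ k)).map σ = m.map (algebraMap ℚ (AlgebraicClosure ℚ)) := by
  rw [map_map]
  congr 1
  exact Subsingleton.elim _ _

include j in
theorem dvd_minpoly (hF : Irreducible F) (hα : (F.map j).eval α = 0) (hint : IsIntegral ℚ α) :
    F ∣ (minpoly ℚ α).map (algebraMap ℚ k) := by
  rcases dvd_or_isCoprime F ((minpoly ℚ α).map (algebraMap ℚ k)) hF with h | h
  · exact h
  · exfalso
    obtain ⟨a, b, hab⟩ := h
    have h1 := congrArg (fun P : k[X] => (P.map j).eval α) hab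
    simp only [Polynomial.map_add, Polynomial.map_mul, eval_add, eval_mul, hα, map_map_eq,
      Polynomial.map_one, eval_one, mul_zero, zero_add] at h1
    rw [eval_map_algebraMap, minpoly.aeval, mul_zero] at h1
    exact zero_ne_one h1

theorem aeval_of_root (hdvd : F ∣ (minpoly ℚ α).map (algebraMap ℚ k)) (σ : k →+* (AlgebraicClosure ℚ)) (z : (AlgebraicClosure ℚ))
    (hz : (F.map σ).eval z = 0) : aeval z (minpoly ℚ α) = 0 := by
  have h1 : F.map σ ∣ (minpoly ℚ α).map (algebraMap ℚ (AlgebraicClosure ℚ)) := by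
    rw [← map_map_eq k _ σ]
    exact Polynomial.map_dvd σ hdvd
  rw [← eval_map_algebraMap]
  exact eval_eq_zero_of_dvd_of_eval_eq_zero h1 hz

open Classical in
theorem card_le (z z' : (AlgebraicClosure ℚ)) (hint : IsIntegral ℚ α) (hz : aeval z (minpoly ℚ α) = 0)
    (hz' : aeval z' (minpoly ℚ α) = 0) :
    (Finset.univ.filter fun σ : k →+* (AlgebraicClosure ℚ) => (F.map σ).eval z = 0).card ≤
      (Finset.univ.filter fun σ : k →+* (AlgebraicClosure ℚ) => (F.map σ).eval z' = 0).card := by
  have hmz : minpoly ℚ α = minpoly ℚ z :=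
    minpoly.eq_of_irreducible_of_monic (minpoly.irreducible hint) hz (minpoly.monic hint)
  have := isAlg
  have := normalQB
  obtain ⟨τ, hτ⟩ := minpoly.exists_algEquiv_of_root' (K := ℚ) (L := (AlgebraicClosure ℚ)) (x := z') (y := z)
    (Algebra.IsAlgebraic.isAlgebraic z) (hmz ▸ hz')
  refine Finset.card_le_card_of_injOn (fun σ => (τ : (AlgebraicClosure ℚ) →+* (AlgebraicClosure ℚ)).comp σ) ?_ ?_
  · intro σ hσ
    simp only [Finset.coe_filter, Finset.mem_univ, true_and, Set.mem_ofPred_eq] at hσ ⊢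
    rw [← map_map, eval_map, ← hτ]
    have h2 := congrArg (τ : (AlgebraicClosure ℚ) →+* (AlgebraicClosure ℚ)) hσ
    rw [map_zero, ← eval₂_hom] at h2
    exact h2
  · intro σ _ σ' _ h
    ext x
    have h3 := congrArg (fun φ : k →+* (AlgebraicClosure ℚ) => φ x) h
    simp only [RingHom.comp_apply] at h3
    exact τ.injective h3

open Classical in
theorem core (hF : Irreducible F) (hα : (F.map j).eval α = 0)
    (hint : IsIntegral ℚ α) (g : (AlgebraicClosure ℚ) → ℝ) :
    ((minpoly ℚ α).natDegree : ℝ) * ∑ σ : k →+* (AlgebraicClosure ℚ), ((F.map σ).roots.map g).sum =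
      (Module.finrank ℚ k : ℝ) * F.natDegree *
        (((minpoly ℚ α).map (algebraMap ℚ (AlgebraicClosure ℚ))).roots.map g).sum := by
  set m := minpoly ℚ α with hm
  set M := m.map (algebraMap ℚ (AlgebraicClosure ℚ)) with hM
  have hdvd := dvd_minpoly k F j α hF hα hint
  have hm0 : m ≠ 0 := minpoly.ne_zero hint
  have hM0 : M ≠ 0 := map_ne_zero hm0
  have hF0 : F ≠ 0 := hF.ne_zero
  have hMsep : M.Separable := (minpoly.irreducible hint).separable.map
  have hMnd : M.roots.Nodup := nodup_roots hMsep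
  have hFnd : ∀ σ : k →+* (AlgebraicClosure ℚ), (F.map σ).roots.Nodup := fun σ => nodup_roots hF.separable.map
  set S := M.roots.toFinset with hS
  have hmemS : ∀ z, z ∈ S ↔ aeval z m = 0 := by
    intro z
    rw [hS, Multiset.mem_toFinset, mem_roots hM0, IsRoot.def, hM, eval_map_algebraMap]
  have key : ∀ (s : Multiset (AlgebraicClosure ℚ)) (hs : s.Nodup) (g : (AlgebraicClosure ℚ) → ℝ),
      (s.map g).sum = ∑ z ∈ s.toFinset, g z := by
    intro s hs g
    rw [Finset.sum_eq_multiset_sum, Multiset.toFinset_val, hs.dedup]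
  have hroots : ∀ σ : k →+* (AlgebraicClosure ℚ), (F.map σ).roots.toFinset = S.filter fun z => (F.map σ).eval z = 0 := by
    intro σ
    ext z
    rw [Finset.mem_filter, Multiset.mem_toFinset, mem_roots (map_ne_zero hF0), IsRoot.def, hmemS]
    exact ⟨fun h => ⟨aeval_of_root k F α hdvd σ z h, h⟩, fun h => h.2⟩
  -- the number of embeddings
  set N : (AlgebraicClosure ℚ) → ℕ := fun z => (Finset.univ.filter fun σ : k →+* (AlgebraicClosure ℚ) => (F.map σ).eval z = 0).card
    with hN
  have hNα : ∀ z ∈ S, N z = N α := by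
    intro z hz
    have h1 := (hmemS z).1 hz
    have h2 : aeval α m = 0 := minpoly.aeval ℚ α
    exact le_antisymm (card_le k F α z α hint h1 h2) (card_le k F α α z hint h2 h1)
  have hsum : ∀ g : (AlgebraicClosure ℚ) → ℝ, ∑ σ : k →+* (AlgebraicClosure ℚ), ((F.map σ).roots.map g).sum =
      N α * (M.roots.map g).sum := by
    intro g
    have h1 : ∀ σ : k →+* (AlgebraicClosure ℚ), ((F.map σ).roots.map g).sum =
        ∑ z ∈ S, if (F.map σ).eval z = 0 then g z else 0 := by
      intro σ
      rw [key _ (hFnd σ), hroots, Finset.sum_filter]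
    rw [Finset.sum_congr rfl fun σ _ => h1 σ, Finset.sum_comm, key _ hMnd, ← hS, Finset.mul_sum]
    refine Finset.sum_congr rfl fun z hz => ?_
    rw [← Finset.sum_filter, Finset.sum_const, nsmul_eq_mul, ← hNα z hz]
  have hone := hsum fun _ => 1
  have hdeg : ∀ P : (AlgebraicClosure ℚ)[X], (P.roots.map fun _ => (1 : ℝ)).sum = P.natDegree := by
    intro P
    rw [Multiset.map_const', Multiset.sum_replicate, nsmul_eq_mul, mul_one,
      (IsAlgClosed.splits P).natDegree_eq_card_roots]
  simp only [hdeg] at hone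
  have h3 : ∑ σ : k →+* (AlgebraicClosure ℚ), ((F.map σ).natDegree : ℝ) = (Module.finrank ℚ k : ℝ) * F.natDegree := by
    simp only [natDegree_map]
    rw [Finset.sum_const, nsmul_eq_mul, Finset.card_univ, NumberField.Embeddings.card]
  rw [h3, hM, natDegree_map] at hone
  rw [hsum g, hone]
  ring

end core

theorem al2 : S_AL2 := by
  intro k _ _ f j α hfm hfi hα g
  classical
  set F := f.map (algebraMap (𝓞 k) k) with hF
  have hint : IsIntegral ℤ α := by
    have h1 : (j.comp (algebraMap (𝓞 k) k)).IsIntegralElem α := by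
      refine ⟨f, hfm, ?_⟩
      rw [← eval_map, ← map_map]
      exact hα
    have h2 : (j.comp (algebraMap (𝓞 k) k)).IsIntegralElem α := h1
    let _ := (j.comp (algebraMap (𝓞 k) k)).toAlgebra
    have h3 : IsIntegral (𝓞 k) α := h1
    have : IsScalarTower ℤ (𝓞 k) (AlgebraicClosure ℚ) := inferInstance
    have : Algebra.IsIntegral ℤ (𝓞 k) := inferInstance
    exact isIntegral_trans α h3
  have hmin : minpoly ℚ α = (minpoly ℤ α).map (algebraMap ℤ ℚ) :=
    minpoly.isIntegrallyClosed_eq_field_fractions' ℚ hint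
  have := isAlg
  let ι : (AlgebraicClosure ℚ) →ₐ[ℚ] ℂ := IsAlgClosed.lift
  let e : (k →+* (AlgebraicClosure ℚ)) → (k →+* ℂ) := fun σ => (ι : (AlgebraicClosure ℚ) →+* ℂ).comp σ
  have he : Function.Bijective e := by
    rw [Fintype.bijective_iff_injective_and_card]
    refine ⟨?_, by rw [NumberField.Embeddings.card, NumberField.Embeddings.card]⟩
    intro σ σ' h
    ext x
    have h3 := congrArg (fun φ : k →+* ℂ => φ x) h
    exact ι.injective h3
  have hsum : ∑ σ : k →+* ℂ, ((f.map (emb σ)).roots.map g).sum =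
      ∑ σ : k →+* (AlgebraicClosure ℚ), ((F.map σ).roots.map (fun z => g (ι z))).sum := by
    rw [← he.sum_comp]
    refine Finset.sum_congr rfl fun σ _ => ?_
    have h4 : f.map (emb (e σ)) = (F.map σ).map (ι : (AlgebraicClosure ℚ) →+* ℂ) := by
      rw [hF, map_map, map_map]
      rfl
    rw [h4, (IsAlgClosed.splits (F.map σ)).roots_map, Multiset.map_map]
    rfl
  have hroots : ((minpoly ℤ α).map (Int.castRingHom ℂ)).roots.map g =
      ((minpoly ℚ α).map (algebraMap ℚ (AlgebraicClosure ℚ))).roots.map (fun z => g (ι z)) := by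
    have h5 : (minpoly ℤ α).map (Int.castRingHom ℂ) =
        ((minpoly ℚ α).map (algebraMap ℚ (AlgebraicClosure ℚ))).map (ι : (AlgebraicClosure ℚ) →+* ℂ) := by
      rw [hmin, map_map, map_map]
      congr 1
      exact Subsingleton.elim _ _
    rw [h5, (IsAlgClosed.splits _).roots_map, Multiset.map_map]
    rfl
  have hdeg : (minpoly ℤ α).natDegree = (minpoly ℚ α).natDegree := by
    rw [hmin, natDegree_map_eq_of_injective (algebraMap ℤ ℚ).injective_int]
  have hdF : f.natDegree = F.natDegree := by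
    rw [hF, hfm.natDegree_map]
  rw [hsum, hroots, hdeg, hdF]
  exact core k F j α hfi hα hint.tower_top _

end Pool.Agent.P8H62.RL
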